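import Mathlib
import Pool.Agent.Helper932.SplitPrimes

set_option autoImplicit false

open MvPolynomial MeasureTheory Finset

namespace Pool.Agent.Helper318.MM

open NumberField in
theorem J1a_split_infinite (K : Type) [Field K] [NumberField K] (N : ℕ) :
    ∃ p : ℕ, p.Prime ∧ N < p ∧ Nonempty (𝓞 K →+* ZMod p) := by
  by_contra hcon
  push Not at hcon
  have hfin : {p : ℕ | p.Prime ∧ Nonempty (𝓞 K →+* ZMod p)}.Finite := by
    refine (Set.finite_Iic N).subset ?_
    rintro p ⟨hp, hne⟩
    by_contra hlt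
    exact (not_nonempty_iff.2 (hcon p hp (not_le.1 hlt))) hne
  have := hfin.to_subtype
  exact Pool.Agent.Helper932.not_summable_split (K := K) (Summable.of_finite)

open NumberField in
theorem J1a_field (K : Type) [Field K] [NumberField K] (S : Finset K) (N : ℕ) :
    ∃ p : ℕ, p.Prime ∧ N < p ∧ ∃ (R : Subring K) (_ : R →+* ZMod p), ∀ t ∈ S, t ∈ R := by
  have halg : Algebra.IsAlgebraic ℤ K :=
    (IsFractionRing.comap_isAlgebraic_iff (A := ℤ) (K := ℚ) (C := K)).mpr inferInstance
  obtain ⟨y, hy0, hy⟩ := Algebra.IsAlgebraic.exists_integral_multiples ℤ S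
  obtain ⟨p, hp, hpN, ⟨ψ⟩⟩ := J1a_split_infinite K (max N y.natAbs)
  have : Fact p.Prime := ⟨hp⟩
  have hyK : ((y : ℤ) : K) ≠ 0 := by exact_mod_cast hy0
  have hg : IsUnit (algebraMap (𝓞 K) K ((y : ℤ) : 𝓞 K)) := by
    rw [map_intCast]
    exact isUnit_iff_ne_zero.2 hyK
  have hψ : IsUnit (ψ ((y : ℤ) : 𝓞 K)) := by
    rw [map_intCast]
    refine isUnit_iff_ne_zero.2 ?_
    intro h
    rw [ZMod.intCast_zmod_eq_zero_iff_dvd] at h
    have h2 := Int.natAbs_dvd_natAbs.2 h
    rw [Int.natAbs_natCast] at h2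
    have h3 := Nat.le_of_dvd (Int.natAbs_pos.2 hy0) h2
    have h4 := le_max_right N y.natAbs
    omega
  refine ⟨p, hp, lt_of_le_of_lt (le_max_left _ _) hpN, ?_⟩
  let L := Localization.Away ((y : ℤ) : 𝓞 K)
  let i : L →+* K := IsLocalization.Away.lift ((y : ℤ) : 𝓞 K) hg
  have hi : ∀ a : 𝓞 K, i (algebraMap (𝓞 K) L a) = algebraMap (𝓞 K) K a :=
    fun a => IsLocalization.Away.lift_eq _ hg a
  have hinj : Function.Injective i := by
    refine (IsLocalization.lift_injective_iff _).2 (fun a b => ⟨fun h => ?_, fun h => ?_⟩)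
    · rw [← hi, ← hi, h]
    · rw [FaithfulSMul.algebraMap_injective (𝓞 K) K h]
  let e : L ≃+* i.range := RingEquiv.ofBijective i.rangeRestrict
    ⟨fun a b h => hinj (by simpa using congrArg Subtype.val h), i.rangeRestrict_surjective⟩
  refine ⟨i.range, (IsLocalization.Away.lift ((y : ℤ) : 𝓞 K) hψ : L →+* ZMod p).comp
    (e.symm : i.range →+* L), ?_⟩
  intro t ht
  have hint := hy t ht
  let a : 𝓞 K := ⟨y • t, hint⟩
  refine ⟨algebraMap (𝓞 K) L a * IsLocalization.Away.invSelf ((y : ℤ) : 𝓞 K), ?_⟩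
  have h1 : i (algebraMap (𝓞 K) L ((y : ℤ) : 𝓞 K)) * i (IsLocalization.Away.invSelf ((y : ℤ) : 𝓞 K)) = 1 := by
    rw [← map_mul, IsLocalization.Away.mul_invSelf, map_one]
  rw [map_mul, hi]
  rw [hi, map_intCast] at h1
  have h2 : i (IsLocalization.Away.invSelf ((y : ℤ) : 𝓞 K)) = ((y : ℤ) : K)⁻¹ :=
    eq_inv_of_mul_eq_one_right h1
  rw [h2]
  have h3 : algebraMap (𝓞 K) K a = ((y : ℤ) : K) * t := by
    show y • t = _
    rw [zsmul_eq_mul]
  rw [h3]
  field_simp

theorem exists_hom_zmod (T : Finset ℂ) (N : ℕ) :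
    ∃ p : ℕ, p.Prime ∧ N < p ∧ ∃ (R : Subring ℂ) (_ : R →+* ZMod p), ∀ t ∈ T, t ∈ R := by
  classical
  let A : Subalgebra ℚ ℂ := Algebra.adjoin ℚ (T : Set ℂ)
  have hA : Algebra.FiniteType ℚ A :=
    (Subalgebra.fg_iff_finiteType A).1 (Subalgebra.fg_adjoin_finset T)
  obtain ⟨m, hm⟩ := Ideal.exists_maximal A
  let _ : Field (A ⧸ m) := Ideal.Quotient.field m
  have hft : Algebra.FiniteType ℚ (A ⧸ m) :=
    Algebra.FiniteType.of_surjective (Ideal.Quotient.mkₐ ℚ m) (Ideal.Quotient.mkₐ_surjective ℚ m)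
  have hfin : Module.Finite ℚ (A ⧸ m) := finite_of_finite_type_of_isJacobsonRing ℚ (A ⧸ m)
  have hcz : CharZero (A ⧸ m) := algebraRat.charZero (A ⧸ m)
  have hnf : NumberField (A ⧸ m) := by
    refine { to_charZero := hcz, to_finiteDimensional := ?_ }
    convert hfin
    exact Subsingleton.elim _ _
  let φ : A →+* (A ⧸ m) := Ideal.Quotient.mk m
  have hmemA : ∀ t ∈ T, t ∈ A := fun t ht => Algebra.subset_adjoin ht
  let S0 : Finset (A ⧸ m) := T.attach.image (fun t : {x // x ∈ T} => φ ⟨(t : ℂ), hmemA t.1 t.2⟩)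
  obtain ⟨p, hp, hpN, R0, χ, hR0⟩ := J1a_field (A ⧸ m) S0 N
  refine ⟨p, hp, hpN, (R0.comap φ).map (A.val : A →+* ℂ), ?_, ?_⟩
  · refine (χ.comp ((φ.comp (R0.comap φ).subtype).codRestrict R0 (fun x => x.2))).comp ?_
    exact ((R0.comap φ).equivMapOfInjective (A.val : A →+* ℂ) Subtype.val_injective).symm.toRingHom
  · intro t ht
    refine ⟨⟨t, hmemA t ht⟩, ?_, rfl⟩
    exact hR0 _ (Finset.mem_image.2 ⟨⟨t, ht⟩, Finset.mem_attach _ _, rfl⟩)

theorem exists_split (V : Finset ℂ) (e : ℕ) (he : 0 < e) (N : ℕ) :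
    ∃ p : ℕ, p.Prime ∧ N < p ∧ e ∣ p - 1 ∧ ∃ (R : Subring ℂ) (φ : R →+* ZMod p),
      ∀ v ∈ V, ∃ hv : v ∈ R, v ≠ 0 → φ ⟨v, hv⟩ ^ ((p - 1) / e) = 1 := by
  classical
  have hw0 : ∀ v : ℂ, ∃ w : ℂ, w ^ e = v := fun v => IsAlgClosed.exists_pow_nat_eq v he
  choose w hw using hw0
  have hζ : IsPrimitiveRoot (Complex.exp (2 * Real.pi * Complex.I / e)) e :=
    Complex.isPrimitiveRoot_exp e he.ne'
  generalize Complex.exp (2 * Real.pi * Complex.I / e) = ζ at hζ
  obtain ⟨p, hp, hNp, R, φ, hT⟩ := exists_hom_zmod (V ∪ V.image w ∪ V.image (fun v => (w v)⁻¹) ∪ {ζ}) (max N e)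
  haveI : Fact p.Prime := ⟨hp⟩
  have hep : e < p := (le_max_right _ _).trans_lt hNp
  haveI : NeZero (e : ZMod p) := ⟨by
    rw [Ne, ZMod.natCast_eq_zero_iff]
    intro h
    exact absurd (Nat.le_of_dvd he h) (not_le.mpr hep)⟩
  have hζR : ζ ∈ R := hT ζ (by simp)
  have hprR : IsPrimitiveRoot (⟨ζ, hζR⟩ : R) e := by
    have h1 : Function.Injective (R.subtype) := R.subtype_injective
    exact IsPrimitiveRoot.of_map_of_injective (f := R.subtype) hζ h1
  have hroot := hprR.isRoot_cyclotomic he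
  have hroot2 := hroot.map (f := φ)
  rw [Polynomial.map_cyclotomic, Polynomial.isRoot_cyclotomic_iff] at hroot2
  have hdvd : e ∣ p - 1 := hroot2.dvd_of_pow_eq_one _ (ZMod.pow_card_sub_one_eq_one (hroot2.ne_zero he.ne'))
  refine ⟨p, hp, (le_max_left _ _).trans_lt hNp, hdvd, R, φ, ?_⟩
  intro v hv
  have hvR : v ∈ R := hT v (by simp [hv])
  refine ⟨hvR, fun hv0 => ?_⟩
  have hwR : w v ∈ R := hT (w v) (by
    simp only [mem_union, mem_image, mem_singleton]
    exact Or.inl (Or.inl (Or.inr ⟨v, hv, rfl⟩)))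
  have hwiR : (w v)⁻¹ ∈ R := hT (w v)⁻¹ (by
    simp only [mem_union, mem_image, mem_singleton]
    exact Or.inl (Or.inr ⟨v, hv, rfl⟩))
  have hwv0 : w v ≠ 0 := by
    intro h
    apply hv0
    rw [← hw v, h, zero_pow he.ne']
  have h1 : (⟨w v, hwR⟩ : R) * ⟨(w v)⁻¹, hwiR⟩ = 1 := by
    apply Subtype.ext
    exact mul_inv_cancel₀ hwv0
  have h2 : φ ⟨w v, hwR⟩ ≠ 0 := by
    intro h
    have h3 := congrArg φ h1
    rw [map_mul, map_one, h, zero_mul] at h3
    exact zero_ne_one h3
  have h3 : (⟨v, hvR⟩ : R) = ⟨w v, hwR⟩ ^ e := by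
    apply Subtype.ext
    exact (hw v).symm
  rw [h3, map_pow, ← pow_mul, Nat.mul_div_cancel' hdvd]
  exact ZMod.pow_card_sub_one_eq_one h2


theorem integral_eq_aux (k : ℕ) :
    ∫ x in Set.Icc (0 : ℝ) 1, ((x : ℂ)) ^ k = ((k : ℂ) + 1)⁻¹ := by
  have h1 : ∀ x : ℝ, ((x : ℂ)) ^ k = ((x ^ k : ℝ) : ℂ) := by intro x; push_cast; rfl
  simp_rw [h1]
  rw [integral_complex_ofReal, integral_Icc_eq_integral_Ioc,
    ← intervalIntegral.integral_of_le zero_le_one, integral_pow]
  push_cast
  simp

theorem integral_eq {n : ℕ} (f : MvPolynomial (Fin n) ℂ) :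
    ∫ x in Set.Icc (0 : Fin n → ℝ) 1, MvPolynomial.eval (fun i => ((x i : ℝ) : ℂ)) f
      = ∑ α ∈ f.support, f.coeff α * ∏ i, ((α i : ℂ) + 1)⁻¹ := by
  simp_rw [MvPolynomial.eval_eq']
  rw [integral_finsetSum]
  · refine Finset.sum_congr rfl fun α _ => ?_
    rw [integral_const_mul]
    congr 1
    have h1 : Set.Icc (0 : Fin n → ℝ) 1 = Set.pi Set.univ (fun _ => Set.Icc (0:ℝ) 1) := by
      rw [← Set.pi_univ_Icc]; rfl
    rw [h1, volume_pi, Measure.restrict_pi_pi]
    rw [integral_fintype_prod_eq_prod (fun i (x : ℝ) => ((x : ℂ)) ^ (α i))]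
    refine Finset.prod_congr rfl fun i _ => ?_
    exact integral_eq_aux (α i)
  · intro α _
    refine ContinuousOn.integrableOn_compact isCompact_Icc ?_
    refine Continuous.continuousOn ?_
    refine continuous_const.mul (continuous_finsetProd _ fun i _ => ?_)
    exact (Complex.continuous_ofReal.comp (continuous_apply i)).pow _

/-- `monomial α c ↦ c * ∏_{i ∉ S} 1/(α i + 1)` -/
noncomputable def ES {n : ℕ} {F : Type*} [Field F] (S : Finset (Fin n)) :
    MvPolynomial (Fin n) F →ₗ[F] F :=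
  (MvPolynomial.basisMonomials (Fin n) F).constr F (fun α => ∏ i ∈ Sᶜ, ((α i : F) + 1)⁻¹)

theorem ES_monomial {n : ℕ} {F : Type*} [Field F] (S : Finset (Fin n)) (α : Fin n →₀ ℕ) (c : F) :
    ES S (monomial α c) = c * ∏ i ∈ Sᶜ, ((α i : F) + 1)⁻¹ := by
  have h : (monomial α c : MvPolynomial (Fin n) F) =
      c • MvPolynomial.basisMonomials (Fin n) F α := by
    rw [MvPolynomial.coe_basisMonomials, MvPolynomial.smul_monomial, smul_eq_mul, mul_one]
  rw [h, map_smul, ES, Module.Basis.constr_basis, smul_eq_mul]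

/-- `monomial α c ↦ c * ∏_{i ∉ S} 1/(α i + 1)` if `α i = q` on `S`, else `0` -/
noncomputable def EP {n : ℕ} {F : Type*} [Field F] (q : ℕ) (S : Finset (Fin n)) :
    MvPolynomial (Fin n) F →ₗ[F] F :=
  (MvPolynomial.basisMonomials (Fin n) F).constr F
    (fun α => if ∀ i ∈ S, α i = q then ∏ i ∈ Sᶜ, ((α i : F) + 1)⁻¹ else 0)

theorem EP_monomial {n : ℕ} {F : Type*} [Field F] (q : ℕ) (S : Finset (Fin n)) (α : Fin n →₀ ℕ) (c : F) :
    EP q S (monomial α c) = if ∀ i ∈ S, α i = q then c * ∏ i ∈ Sᶜ, ((α i : F) + 1)⁻¹ else 0 := by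
  have h : (monomial α c : MvPolynomial (Fin n) F) =
      c • MvPolynomial.basisMonomials (Fin n) F α := by
    rw [MvPolynomial.coe_basisMonomials, MvPolynomial.smul_monomial, smul_eq_mul, mul_one]
  rw [h, map_smul, EP, Module.Basis.constr_basis, smul_eq_mul, mul_ite, mul_zero]

/-- all monomials of `f` have weight at most `a - c` on `S` -/
def WB {n : ℕ} {F : Type*} [Field F] (S : Finset (Fin n)) (c : ℕ) (f : MvPolynomial (Fin n) F)
    (a : ℕ) : Prop := ∀ α ∈ f.support, ∑ i ∈ S, α i + c ≤ a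

theorem WB.mul {n : ℕ} {F : Type*} [Field F] {S : Finset (Fin n)} {c d : ℕ}
    {f g : MvPolynomial (Fin n) F} {a b : ℕ} (hf : WB S c f a) (hg : WB S d g b) :
    WB S (c + d) (f * g) (a + b) := by
  classical
  intro γ hγ
  have h := MvPolynomial.support_mul f g hγ
  rw [Finset.mem_add] at h
  obtain ⟨α, hα, β, hβ, rfl⟩ := h
  have h1 := hf α hα
  have h2 := hg β hβ
  simp only [Finsupp.add_apply, Finset.sum_add_distrib]
  omega

theorem WB.add {n : ℕ} {F : Type*} [Field F] {S : Finset (Fin n)} {c : ℕ}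
    {f g : MvPolynomial (Fin n) F} {a : ℕ} (hf : WB S c f a) (hg : WB S c g a) :
    WB S c (f + g) a := by
  classical
  intro γ hγ
  have h := MvPolynomial.support_add hγ
  rw [Finset.mem_union] at h
  rcases h with h | h
  · exact hf γ h
  · exact hg γ h

theorem EP_zero {n : ℕ} {F : Type*} [Field F] (S : Finset (Fin n)) (q : ℕ)
    (f : MvPolynomial (Fin n) F) (hf : WB S 1 f (q * S.card)) : EP q S f = 0 := by
  rw [← MvPolynomial.support_sum_monomial_coeff f, map_sum]
  refine Finset.sum_eq_zero fun α hα => ?_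
  rw [EP_monomial, if_neg]
  intro h
  have h1 := hf α hα
  have h2 : ∑ i ∈ S, α i = q * S.card := by
    rw [Finset.sum_congr rfl h, Finset.sum_const, smul_eq_mul, mul_comm]
  omega

theorem EP_pow_top {n : ℕ} {F : Type*} [Field F] (S : Finset (Fin n)) (e m : ℕ)
    (f : MvPolynomial (Fin n) F) (hf : ∀ α ∈ f.support, ∀ i, α i ≤ e)
    (g : MvPolynomial (Fin n) F)
    (hg : ∀ α, g.coeff α = if ∀ i ∈ S, α i = e then f.coeff α else 0) :
    EP (e * m) S (f ^ m) = EP (e * m) S (g ^ m) := by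
  have hf0 : WB S 0 f (e * S.card) := by
    intro α hα
    rw [add_zero]
    calc ∑ i ∈ S, α i ≤ ∑ _i ∈ S, e := Finset.sum_le_sum fun i _ => hf α hα i
      _ = e * S.card := by rw [Finset.sum_const, smul_eq_mul, mul_comm]
  have hg0 : WB S 0 g (e * S.card) := by
    intro α hα
    refine hf0 α ?_
    rw [MvPolynomial.mem_support_iff, hg α] at hα
    rw [MvPolynomial.mem_support_iff]
    split_ifs at hα with h
    · exact hα
    · exact absurd rfl hα
  have hh : WB S 1 (f - g) (e * S.card) := by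
    intro α hα
    rw [MvPolynomial.mem_support_iff, MvPolynomial.coeff_sub, hg α] at hα
    split_ifs at hα with h
    · exact absurd (sub_self _) hα
    · rw [sub_zero] at hα
      push Not at h
      obtain ⟨j, hj, hj'⟩ := h
      have hα' := hf α (MvPolynomial.mem_support_iff.2 hα)
      have : ∑ i ∈ S, α i < ∑ _i ∈ S, e :=
        Finset.sum_lt_sum (fun i _ => hα' i) ⟨j, hj, lt_of_le_of_ne (hα' j) hj'⟩
      rw [Finset.sum_const, smul_eq_mul, mul_comm] at this
      exact this
  have hpow : ∀ k : ℕ, WB S 0 (f ^ k) (k * (e * S.card)) ∧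
      WB S 1 (f ^ k - g ^ k) (k * (e * S.card)) := by
    intro k
    induction k with
    | zero =>
      constructor
      · intro α hα
        rw [pow_zero, MvPolynomial.mem_support_iff, MvPolynomial.coeff_one] at hα
        split_ifs at hα with h
        · subst h
          simp
        · exact absurd rfl hα
      · intro α hα
        rw [pow_zero, pow_zero, sub_self, MvPolynomial.support_zero] at hα
        simp at hα
    | succ k ih =>
      have e1 : (k + 1) * (e * S.card) = k * (e * S.card) + e * S.card := by ring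
      constructor
      · rw [pow_succ, e1]
        exact WB.mul ih.1 hf0
      · have e2 : f ^ (k + 1) - g ^ (k + 1) = f ^ k * (f - g) + (f ^ k - g ^ k) * g := by ring
        rw [e2, e1]
        exact WB.add (by simpa using WB.mul ih.1 hh) (by simpa using WB.mul ih.2 hg0)
  rw [← sub_eq_zero, ← map_sub]
  refine EP_zero S (e * m) _ ?_
  have := (hpow m).2
  have e3 : m * (e * S.card) = e * m * S.card := by ring
  rwa [e3] at this

theorem EP_mul_pow {n : ℕ} {F : Type*} [Field F] (S : Finset (Fin n)) (q : ℕ)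
    (G : MvPolynomial (Fin n) F) (hG : ∀ α ∈ G.support, ∀ i ∈ S, α i = 0) :
    EP q S ((∏ i ∈ S, X i ^ q) * G) = ES S G := by
  classical
  have h1 : (∏ i ∈ S, X i ^ q : MvPolynomial (Fin n) F) =
      monomial (∑ i ∈ S, Finsupp.single i q) 1 := by
    rw [MvPolynomial.monomial_sum_one]
    exact Finset.prod_congr rfl fun i _ => MvPolynomial.X_pow_eq_monomial
  have h2 : ∀ j : Fin n, (∑ i ∈ S, Finsupp.single i q : Fin n →₀ ℕ) j = if j ∈ S then q else 0 := by
    intro j
    rw [Finsupp.finsetSum_apply]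
    simp only [Finsupp.single_apply]
    rw [Finset.sum_ite_eq' S j]
  rw [h1]
  conv_lhs => rw [← MvPolynomial.support_sum_monomial_coeff G]
  conv_rhs => rw [← MvPolynomial.support_sum_monomial_coeff G]
  rw [Finset.mul_sum, map_sum, map_sum]
  refine Finset.sum_congr rfl fun α hα => ?_
  rw [MvPolynomial.monomial_mul, one_mul, EP_monomial, ES_monomial, if_pos]
  · congr 1
    refine Finset.prod_congr rfl fun i hi => ?_
    rw [Finsupp.add_apply, h2, if_neg (Finset.mem_compl.1 hi), zero_add]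
  · intro i hi
    rw [Finsupp.add_apply, h2, if_pos hi, hG α hα i hi, add_zero]


def uu {n : ℕ} (p : ℕ) (α : Fin n →₀ ℕ) : ℕ :=
  ∏ i ∈ (univ.filter (fun i => α i = p - 1))ᶜ, (α i + 1)

theorem prod_eq {n : ℕ} {p : ℕ} (hp : 1 ≤ p) (α : Fin n →₀ ℕ) :
    ∏ i, (α i + 1) = p ^ (univ.filter (fun i => α i = p - 1)).card * uu p α := by
  unfold uu
  rw [← Finset.prod_mul_prod_compl (univ.filter (fun i => α i = p - 1))]
  congr 1
  rw [← Finset.prod_const]
  refine Finset.prod_congr rfl fun i hi => ?_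
  rw [Finset.mem_filter] at hi
  rw [hi.2]
  omega

theorem uu_ne {n : ℕ} {p : ℕ} [Fact p.Prime] (α : Fin n →₀ ℕ) (hα : ∀ i, α i ≤ p - 1) :
    ((uu p α : ℕ) : ZMod p) ≠ 0 := by
  unfold uu
  rw [Nat.cast_prod, Finset.prod_ne_zero_iff]
  intro i hi
  rw [Finset.mem_compl, Finset.mem_filter] at hi
  rw [Ne, ZMod.natCast_eq_zero_iff]
  intro hd
  have h1 := Nat.le_of_dvd (by omega) hd
  have h2 := hα i
  exact hi ⟨Finset.mem_univ _, by omega⟩

theorem pole_identity {n : ℕ} {p : ℕ} [Fact p.Prime] (R : Subring ℂ) (φ : R →+* ZMod p)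
    (h : MvPolynomial (Fin n) R) (s : ℕ)
    (hdeg : ∀ α ∈ h.support, ∀ i, α i ≤ p - 1)
    (hs : ∀ α ∈ h.support, (univ.filter (fun i => α i = p - 1)).card ≤ s)
    (h0 : ∑ α ∈ h.support, ((h.coeff α : R) : ℂ) * ∏ i, ((α i : ℂ) + 1)⁻¹ = 0) :
    ∑ S ∈ powersetCard s (univ : Finset (Fin n)), EP (p - 1) S (MvPolynomial.map φ h) = 0 := by
  classical
  have hp := (Fact.out : p.Prime)
  have hp1 : 1 ≤ p := hp.one_lt.le
  have hpC : (p : ℂ) ≠ 0 := by exact_mod_cast hp.ne_zero
  have huC : ∀ α : Fin n →₀ ℕ, ((uu p α : ℕ) : ℂ) ≠ 0 := by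
    intro α
    unfold uu
    rw [Nat.cast_ne_zero, Finset.prod_ne_zero_iff]
    intro i _
    exact Nat.succ_ne_zero _
  -- the identity in `ℂ`
  have e1 : ∑ α ∈ h.support, ((h.coeff α : R) : ℂ) *
      (p : ℂ) ^ (s - (univ.filter (fun i => α i = p - 1)).card) *
      ∏ β ∈ h.support.erase α, ((uu p β : ℕ) : ℂ) = 0 := by
    have h1 : ((p : ℂ) ^ s * ∏ β ∈ h.support, ((uu p β : ℕ) : ℂ)) *
        ∑ α ∈ h.support, ((h.coeff α : R) : ℂ) * ∏ i, ((α i : ℂ) + 1)⁻¹ = 0 := by
      rw [h0, mul_zero]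
    rw [Finset.mul_sum] at h1
    rw [← h1]
    refine Finset.sum_congr rfl fun α hα => ?_
    have h2 : ∏ i, ((α i : ℂ) + 1)⁻¹ =
        ((p : ℂ) ^ (univ.filter (fun i => α i = p - 1)).card * ((uu p α : ℕ) : ℂ))⁻¹ := by
      rw [Finset.prod_inv_distrib]
      congr 1
      have := prod_eq hp1 α
      exact_mod_cast this
    rw [h2, ← Finset.mul_prod_erase h.support _ hα, ← Nat.sub_add_cancel (hs α hα), pow_add,
      Nat.add_sub_cancel]
    have h3 := huC α
    have h4 : (p : ℂ) ^ (univ.filter (fun i => α i = p - 1)).card ≠ 0 := pow_ne_zero _ hpC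
    field_simp
  -- the identity in `R`
  have e2 : ∑ α ∈ h.support, h.coeff α *
      (p : R) ^ (s - (univ.filter (fun i => α i = p - 1)).card) *
      ∏ β ∈ h.support.erase α, ((uu p β : ℕ) : R) = 0 := by
    apply Subtype.coe_injective
    push_cast
    exact e1
  have e3 : ∑ α ∈ h.support, φ (h.coeff α) *
      (p : ZMod p) ^ (s - (univ.filter (fun i => α i = p - 1)).card) *
      ∏ β ∈ h.support.erase α, ((uu p β : ℕ) : ZMod p) = 0 := by
    have := congrArg φ e2
    rw [map_zero, map_sum] at this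
    rw [← this]
    refine Finset.sum_congr rfl fun α _ => ?_
    rw [map_mul, map_mul, map_pow, map_natCast, map_prod]
    congr 1
    refine Finset.prod_congr rfl fun β _ => ?_
    rw [map_natCast]
  have hU : ∏ β ∈ h.support, ((uu p β : ℕ) : ZMod p) ≠ 0 := by
    rw [Finset.prod_ne_zero_iff]
    intro β hβ
    exact uu_ne β (hdeg β hβ)
  have e4 : ∑ α ∈ h.support, (if (univ.filter (fun i => α i = p - 1)).card = s then
      φ (h.coeff α) * ((uu p α : ℕ) : ZMod p)⁻¹ else 0) = 0 := by
    have h1 : (∏ β ∈ h.support, ((uu p β : ℕ) : ZMod p)) *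
        ∑ α ∈ h.support, (if (univ.filter (fun i => α i = p - 1)).card = s then
      φ (h.coeff α) * ((uu p α : ℕ) : ZMod p)⁻¹ else 0) = 0 := by
      rw [Finset.mul_sum]
      refine Eq.trans (Finset.sum_congr rfl fun α hα => ?_) e3
      split_ifs with hk
      · rw [hk, Nat.sub_self, pow_zero, mul_one, ← Finset.mul_prod_erase h.support _ hα]
        have h3 := uu_ne α (hdeg α hα)
        field_simp
      · have h4 := hs α hα
        have h5 : s - (univ.filter (fun i => α i = p - 1)).card ≠ 0 := by omega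
        rw [ZMod.natCast_self, zero_pow h5, mul_zero, mul_zero, zero_mul]
    exact (mul_eq_zero.1 h1).resolve_left hU
  -- the target
  have e5 : MvPolynomial.map φ h = ∑ α ∈ h.support, monomial α (φ (h.coeff α)) := by
    conv_lhs => rw [MvPolynomial.as_sum h]
    rw [map_sum]
    refine Finset.sum_congr rfl fun α _ => ?_
    rw [MvPolynomial.map_monomial]
  simp only [e5, map_sum]
  rw [Finset.sum_comm, ← e4]
  refine Finset.sum_congr rfl fun α hα => ?_
  simp only [EP_monomial]
  split_ifs with hk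
  · rw [Finset.sum_eq_single (univ.filter (fun i => α i = p - 1))]
    · rw [if_pos (fun i hi => (Finset.mem_filter.1 hi).2), Finset.prod_inv_distrib]
      congr 2
      unfold uu
      push_cast
      rfl
    · intro S hS hne
      rw [if_neg]
      intro hall
      apply hne
      rw [Finset.mem_powersetCard] at hS
      refine Finset.eq_of_subset_of_card_le ?_ ?_
      · intro i hi
        rw [Finset.mem_filter]
        exact ⟨Finset.mem_univ _, hall i hi⟩
      · rw [hk, hS.2]
    · intro hnot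
      exact absurd (Finset.mem_powersetCard.2 ⟨Finset.subset_univ _, hk⟩) hnot
  · apply Finset.sum_eq_zero
    intro S hS
    rw [if_neg]
    intro hall
    rw [Finset.mem_powersetCard] at hS
    have h1 : S ⊆ univ.filter (fun i => α i = p - 1) := by
      intro i hi
      rw [Finset.mem_filter]
      exact ⟨Finset.mem_univ _, hall i hi⟩
    have h2 := Finset.card_le_card h1
    have h3 := hs α hα
    omega


theorem ES_C {n : ℕ} {F : Type*} [Field F] (S : Finset (Fin n)) (c : F) :
    ES S (C c) = c := by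
  rw [MvPolynomial.C_apply, ES_monomial]
  simp

theorem ES_mul_X {n : ℕ} {F : Type*} [Field F] (S : Finset (Fin n)) (i : Fin n) (hi : i ∉ S)
    (P : MvPolynomial (Fin n) F) (hP : i ∉ P.vars) (j : ℕ) :
    ES S (P * X i ^ j) = ES S P * ((j : F) + 1)⁻¹ := by
  have hsum : P = ∑ α ∈ P.support, monomial α (coeff α P) := P.as_sum
  have h1 : P * X i ^ j = ∑ α ∈ P.support, monomial (α + Finsupp.single i j) (coeff α P) := by
    conv_lhs => rw [hsum]
    rw [Finset.sum_mul]
    refine Finset.sum_congr rfl fun α _ => ?_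
    rw [MvPolynomial.X_pow_eq_monomial, MvPolynomial.monomial_mul, mul_one]
  conv_rhs => rw [hsum]
  rw [h1, map_sum, map_sum, Finset.sum_mul]
  refine Finset.sum_congr rfl fun α hα => ?_
  have hα0 : α i = 0 := by
    by_contra h
    exact hP ((MvPolynomial.mem_vars_iff_mem_support i).2 ⟨α, hα, Finsupp.mem_support_iff.2 h⟩)
  rw [ES_monomial, ES_monomial, mul_assoc]
  congr 1
  have hi' : i ∈ Sᶜ := Finset.mem_compl.2 hi
  rw [← Finset.mul_prod_erase _ _ hi', ← Finset.mul_prod_erase _ _ hi']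
  have h2 : ∏ k ∈ Sᶜ.erase i, (((α + Finsupp.single i j) k : ℕ) + 1 : F)⁻¹ =
      ∏ k ∈ Sᶜ.erase i, ((α k : F) + 1)⁻¹ := by
    refine Finset.prod_congr rfl fun k hk => ?_
    rw [Finsupp.add_apply, Finsupp.single_eq_of_ne (Finset.ne_of_mem_erase hk), add_zero]
  rw [h2, Finsupp.add_apply, Finsupp.single_eq_same, hα0]
  simp
  ring

theorem ES_step {n : ℕ} {F : Type*} [Field F] (S : Finset (Fin n)) (i : Fin n) (hi : i ∉ S)
    (A : MvPolynomial (Fin n) F) (hA : i ∉ A.vars) (b : F) (m : ℕ)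
    (hm : ∀ j : ℕ, 0 < j → j ≤ m + 1 → (j : F) ≠ 0) :
    ((m + 1 : ℕ) : F) * b * ES S ((A + C b * X i) ^ m) =
      ES S ((A + C b) ^ (m + 1)) - ES S (A ^ (m + 1)) := by
  have hAk : ∀ k, i ∉ (A ^ k).vars := fun k h => hA (MvPolynomial.vars_pow A k h)
  rw [add_pow (A) (C b) (m + 1), Finset.sum_range_succ, Nat.sub_self, pow_zero, mul_one,
    Nat.choose_self, Nat.cast_one, mul_one, map_add, add_sub_cancel_right, add_pow, map_sum,
    map_sum, Finset.mul_sum]
  refine Finset.sum_congr rfl fun k hk => ?_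
  have hk' : k ≤ m := Nat.lt_succ_iff.1 (Finset.mem_range.1 hk)
  have e1 : A ^ k * (C b * X i) ^ (m - k) * ((m.choose k : ℕ) : MvPolynomial (Fin n) F) =
      (b ^ (m - k) * (m.choose k : F)) • (A ^ k * X i ^ (m - k)) := by
    rw [mul_pow, MvPolynomial.smul_eq_C_mul, map_mul, map_pow, map_natCast]
    ring
  have e2 : A ^ k * C b ^ (m + 1 - k) * (((m + 1).choose k : ℕ) : MvPolynomial (Fin n) F) =
      (b ^ (m + 1 - k) * ((m + 1).choose k : F)) • (A ^ k) := by
    rw [MvPolynomial.smul_eq_C_mul, map_mul, map_pow, map_natCast]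
    ring
  rw [e1, e2, map_smul, map_smul, ES_mul_X S i hi _ (hAk k), smul_eq_mul, smul_eq_mul]
  have h3 : m + 1 - k = (m - k) + 1 := by omega
  have h4 : ((m - k + 1 : ℕ) : F) ≠ 0 := hm _ (by omega) (by omega)
  have h5 : (m + 1) * m.choose k = (m + 1).choose k * (m - k + 1) := by
    have := Nat.add_one_mul_choose_eq m (m - k)
    rw [Nat.choose_symm hk'] at this
    rw [this]
    congr 1
    rw [← Nat.choose_symm (by omega : k ≤ m + 1)]
    congr 1
    omega
  have h6 : ((m + 1 : ℕ) : F) * (m.choose k : F) = ((m + 1).choose k : F) * ((m - k + 1 : ℕ) : F) := by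
    exact_mod_cast congrArg (Nat.cast : ℕ → F) h5
  have h7 : ((m - k : ℕ) : F) + 1 = ((m - k + 1 : ℕ) : F) := by push_cast; ring
  rw [h7, h3, pow_succ]
  have h8 : ((m - k + 1 : ℕ) : F) * (((m - k + 1 : ℕ) : F))⁻¹ = 1 := mul_inv_cancel₀ h4
  calc ((m + 1 : ℕ) : F) * b * (b ^ (m - k) * (m.choose k : F) *
        (ES S (A ^ k) * (((m - k + 1 : ℕ) : F))⁻¹))
      = (((m + 1 : ℕ) : F) * (m.choose k : F)) * (b ^ (m - k) * b * ES S (A ^ k) *
        (((m - k + 1 : ℕ) : F))⁻¹) := by ring
    _ = ((m + 1).choose k : F) * (((m - k + 1 : ℕ) : F) * (((m - k + 1 : ℕ) : F))⁻¹) *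
        (b ^ (m - k) * b * ES S (A ^ k)) := by rw [h6]; ring
    _ = _ := by rw [h8]; ring

theorem linear_integral {n : ℕ} {F : Type*} [Field F] (S T : Finset (Fin n)) (hST : Disjoint S T)
    (b : Fin n → F) (a : F) (m : ℕ) (hm : ∀ j : ℕ, 0 < j → j ≤ m + T.card → (j : F) ≠ 0) :
    (∏ i ∈ T, b i) * (∏ j ∈ range T.card, ((m + j + 1 : ℕ) : F)) *
        ES S ((C a + ∑ i ∈ T, C (b i) * X i) ^ m)
      = ∑ U ∈ T.powerset, (-1) ^ (T.card - U.card) * (a + ∑ i ∈ U, b i) ^ (m + T.card) := by
  induction T using Finset.induction_on generalizing a m with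
  | empty =>
    simp only [Finset.prod_empty, Finset.card_empty, Finset.range_zero, Finset.sum_empty, add_zero,
      one_mul, Finset.powerset_empty, Finset.sum_singleton, Nat.sub_self, pow_zero]
    rw [← map_pow, ES_C]
  | insert i T hi ih =>
    have hS : i ∉ S := fun h => Finset.disjoint_left.1 hST h (Finset.mem_insert_self i T)
    have hST' : Disjoint S T := Finset.disjoint_of_subset_right (Finset.subset_insert i T) hST
    rw [Finset.card_insert_of_notMem hi] at hm ⊢
    have hA : i ∉ (C a + ∑ i ∈ T, C (b i) * X i : MvPolynomial (Fin n) F).vars := by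
      intro h
      have h1 := MvPolynomial.vars_add_subset _ _ h
      rw [Finset.mem_union] at h1
      rcases h1 with h1 | h1
      · rw [MvPolynomial.vars_C] at h1; simp at h1
      · have h2 := MvPolynomial.vars_sum_subset _ _ h1
        rw [Finset.mem_biUnion] at h2
        obtain ⟨j, hj, hj2⟩ := h2
        have h3 := MvPolynomial.vars_mul _ _ hj2
        rw [MvPolynomial.vars_C, Finset.empty_union, MvPolynomial.vars_X,
          Finset.mem_singleton] at h3
        subst h3
        exact hi hj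
    have hstep := ES_step S i hS _ hA (b i) m (fun j h1 h2 => hm j h1 (by omega))
    have e1 : (C a + ∑ i ∈ insert i T, C (b i) * X i : MvPolynomial (Fin n) F) =
        (C a + ∑ i ∈ T, C (b i) * X i) + C (b i) * X i := by
      rw [Finset.sum_insert hi]; ring
    have e2 : (C a + ∑ i ∈ T, C (b i) * X i : MvPolynomial (Fin n) F) + C (b i) =
        C (a + b i) + ∑ i ∈ T, C (b i) * X i := by
      rw [map_add]; ring
    have hm' : ∀ j : ℕ, 0 < j → j ≤ m + 1 + T.card → (j : F) ≠ 0 :=
      fun j h1 h2 => hm j h1 (by omega)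
    have ih1 := ih hST' (a + b i) (m + 1) hm'
    have ih2 := ih hST' a (m + 1) hm'
    rw [e1, Finset.prod_insert hi, Finset.prod_range_succ', add_zero]
    have e3 : ∏ k ∈ range T.card, ((m + (k + 1) + 1 : ℕ) : F) =
        ∏ k ∈ range T.card, ((m + 1 + k + 1 : ℕ) : F) := by
      refine Finset.prod_congr rfl fun k _ => ?_
      congr 1
      omega
    rw [e3]
    calc (b i * ∏ x ∈ T, b x) * ((∏ k ∈ range T.card, ((m + 1 + k + 1 : ℕ) : F)) * ((m + 1 : ℕ) : F)) *
          ES S ((C a + ∑ i ∈ T, C (b i) * X i + C (b i) * X i) ^ m)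
        = (∏ x ∈ T, b x) * (∏ k ∈ range T.card, ((m + 1 + k + 1 : ℕ) : F)) * (((m + 1 : ℕ) : F) *
          b i * ES S ((C a + ∑ i ∈ T, C (b i) * X i + C (b i) * X i) ^ m)) := by ring
      _ = _ := by
        rw [hstep, e2, mul_sub, ih1, ih2, Finset.sum_powerset_insert hi, ← Finset.sum_sub_distrib,
          ← Finset.sum_add_distrib]
        refine Finset.sum_congr rfl fun U hU => ?_
        have hU' := Finset.mem_powerset.1 hU
        have hc := Finset.card_le_card hU'
        have hiU : i ∉ U := fun h => hi (hU' h)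
        rw [Finset.sum_insert hiU, Finset.card_insert_of_notMem hiU,
          show T.card + 1 - (U.card + 1) = T.card - U.card by omega,
          show T.card + 1 - U.card = (T.card - U.card) + 1 by omega, pow_succ,
          show m + (T.card + 1) = m + 1 + T.card by omega, add_assoc a (b i)]
        ring

/-! ## assembly -/

/-- weights of powers -/
theorem weight_pow {n : ℕ} {F : Type*} [CommRing F] (W : Finset (Fin n)) (B : ℕ)
    (f : MvPolynomial (Fin n) F) (hf : ∀ β ∈ f.support, ∑ i ∈ W, β i ≤ B) (m : ℕ) :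
    ∀ α ∈ (f ^ m).support, ∑ i ∈ W, α i ≤ m * B := by
  classical
  induction m with
  | zero =>
    intro α hα
    rw [pow_zero] at hα
    have h1 : α = 0 := by
      by_contra hne
      rw [mem_support_iff, coeff_one, if_neg (fun h => hne h.symm)] at hα
      exact hα rfl
    subst h1
    simp
  | succ m ih =>
    intro α hα
    rw [pow_succ] at hα
    obtain ⟨β, hβ, γ, hγ, rfl⟩ := Finset.mem_add.1 (support_mul _ _ hα)
    have h1 := ih β hβ
    have h2 := hf γ hγ
    simp only [Finsupp.add_apply, Finset.sum_add_distrib]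
    nlinarith

/-- exponent vector `e` on `S` -/
noncomputable def eS {n : ℕ} (e : ℕ) (S : Finset (Fin n)) : Fin n →₀ ℕ :=
  ∑ i ∈ S, Finsupp.single i e

theorem eS_apply {n : ℕ} (e : ℕ) (S : Finset (Fin n)) (i : Fin n) :
    eS e S i = if i ∈ S then e else 0 := by
  classical
  unfold eS
  rw [Finsupp.finsetSum_apply]
  simp only [Finsupp.single_apply]
  rw [Finset.sum_ite_eq' S i (fun _ => e)]

theorem prod_X_pow {n : ℕ} {F : Type*} [Field F] (e : ℕ) (S : Finset (Fin n)) :
    (∏ i ∈ S, (X i : MvPolynomial (Fin n) F) ^ e) = monomial (eS e S) 1 := by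
  classical
  unfold eS
  induction S using Finset.induction_on with
  | empty => simp
  | insert i S hi ih =>
    rw [Finset.prod_insert hi, Finset.sum_insert hi, ih, X_pow_eq_monomial, monomial_mul, one_mul]

theorem coeff_linear {n : ℕ} {F : Type*} [Field F] (T : Finset (Fin n)) (a : F) (b : Fin n → F)
    (γ : Fin n →₀ ℕ) :
    (C a + ∑ i ∈ T, C (b i) * X i : MvPolynomial (Fin n) F).coeff γ
      = (if γ = 0 then a else 0) + ∑ i ∈ T, (if γ = Finsupp.single i 1 then b i else 0) := by
  classical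
  rw [coeff_add, coeff_C, coeff_sum]
  congr 1
  · by_cases h : γ = 0
    · rw [if_pos h, if_pos h.symm]
    · rw [if_neg h, if_neg (fun h' => h h'.symm)]
  · refine Finset.sum_congr rfl (fun i _ => ?_)
    rw [coeff_C_mul, coeff_X]
    by_cases h : γ = Finsupp.single i 1
    · rw [if_pos h, if_pos h.symm, mul_one]
    · rw [if_neg h, if_neg (fun h' => h h'.symm), mul_zero]

theorem top_coeff {n : ℕ} {F : Type*} [Field F] (S T : Finset (Fin n)) (hST : Disjoint S T) (e : ℕ)
    (f : MvPolynomial (Fin n) F)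
    (hlin : ∀ α ∈ f.support, (∀ i ∈ S, α i = e) → ∑ i ∈ Sᶜ, α i ≤ 1)
    (hT : ∀ i ∉ S, f.coeff (eS e S + Finsupp.single i 1) ≠ 0 → i ∈ T) (α : Fin n →₀ ℕ) :
    ((∏ i ∈ S, X i ^ e) * (C (f.coeff (eS e S)) +
      ∑ i ∈ T, C (f.coeff (eS e S + Finsupp.single i 1)) * X i) : MvPolynomial (Fin n) F).coeff α
      = if ∀ i ∈ S, α i = e then f.coeff α else 0 := by
  classical
  rw [prod_X_pow, coeff_monomial_mul']
  by_cases hle : eS e S ≤ α
  · rw [if_pos hle, one_mul, coeff_linear]
    obtain ⟨γ, rfl⟩ := exists_add_of_le hle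
    rw [add_tsub_cancel_left]
    have hγ : (∀ i ∈ S, (eS e S + γ) i = e) ↔ ∀ i ∈ S, γ i = 0 := by
      constructor
      · intro h i hi
        have := h i hi
        rw [Finsupp.add_apply, eS_apply, if_pos hi] at this
        omega
      · intro h i hi
        rw [Finsupp.add_apply, eS_apply, if_pos hi, h i hi]
        omega
    simp only [hγ]
    by_cases h0 : ∀ i ∈ S, γ i = 0
    · rw [if_pos h0]
      by_cases hz : γ = 0
      · subst hz
        rw [if_pos rfl, add_zero]
        rw [Finset.sum_eq_zero, add_zero]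
        intro i _
        rw [if_neg]
        intro h
        have := congrArg (fun g => g i) h
        simp at this
      rw [if_neg hz, zero_add]
      -- γ ≠ 0
      by_cases hs : ∃ j, j ∉ S ∧ γ = Finsupp.single j 1
      · obtain ⟨j, hjS, rfl⟩ := hs
        by_cases hj : j ∈ T
        · rw [Finset.sum_eq_single j]
          · rw [if_pos rfl]
          · intro i _ hij
            rw [if_neg]
            intro h
            have h2 := (Finsupp.single_left_inj (one_ne_zero)).1 h
            exact hij h2.symm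
          · intro h; exact absurd hj h
        · have hz2 : f.coeff (eS e S + Finsupp.single j 1) = 0 := by
            by_contra hne
            exact hj (hT j hjS hne)
          rw [hz2]
          refine Finset.sum_eq_zero (fun i hi => ?_)
          rw [if_neg]
          intro h
          have h2 := (Finsupp.single_left_inj (one_ne_zero)).1 h
          rw [h2] at hj
          exact hj hi
      · have hz2 : f.coeff (eS e S + γ) = 0 := by
          by_contra hne
          have hsum := hlin (eS e S + γ) (mem_support_iff.2 hne) (hγ.2 h0)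
          apply hs
          have hsum2 : ∑ i ∈ Sᶜ, γ i ≤ 1 := by
            refine le_trans (le_of_eq ?_) hsum
            refine Finset.sum_congr rfl (fun i hi => ?_)
            rw [Finsupp.add_apply, eS_apply, if_neg (Finset.mem_compl.1 hi), zero_add]
          obtain ⟨j, hj⟩ : ∃ j, γ j ≠ 0 := by
            by_contra hcon
            push Not at hcon
            exact hz (Finsupp.ext hcon)
          have hjS : j ∉ S := fun h => hj (h0 j h)
          refine ⟨j, hjS, ?_⟩
          have hjc : j ∈ Sᶜ := Finset.mem_compl.2 hjS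
          have h1 : γ j + ∑ i ∈ Sᶜ.erase j, γ i = ∑ i ∈ Sᶜ, γ i := Finset.add_sum_erase _ _ hjc
          ext i
          by_cases hij : i = j
          · subst hij
            rw [Finsupp.single_eq_same]
            have : 0 < γ i := Nat.pos_of_ne_zero hj
            omega
          · rw [Finsupp.single_eq_of_ne hij]
            by_cases hiS : i ∈ S
            · exact h0 i hiS
            · have hic : i ∈ Sᶜ.erase j := Finset.mem_erase.2 ⟨hij, Finset.mem_compl.2 hiS⟩
              have h2 : γ i ≤ ∑ i ∈ Sᶜ.erase j, γ i := Finset.single_le_sum (f := fun i => γ i) (fun _ _ => Nat.zero_le _) hic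
              have : 0 < γ j := Nat.pos_of_ne_zero hj
              omega
        rw [hz2]
        refine Finset.sum_eq_zero (fun i hi => ?_)
        rw [if_neg]
        intro h
        exact hs ⟨i, fun h' => (Finset.disjoint_left.1 hST) h' hi, h⟩
    · rw [if_neg h0]
      have hz : γ ≠ 0 := by
        rintro rfl
        exact h0 (fun _ _ => rfl)
      rw [if_neg hz, zero_add]
      refine Finset.sum_eq_zero (fun i hi => ?_)
      rw [if_neg]
      rintro rfl
      apply h0
      intro j hj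
      rw [Finsupp.single_eq_of_ne]
      rintro rfl
      exact (Finset.disjoint_left.1 hST) hj hi
  · rw [if_neg hle, if_neg]
    intro h
    apply hle
    intro i
    rw [eS_apply]
    by_cases hi : i ∈ S
    · rw [if_pos hi, h i hi]
    · rw [if_neg hi]; exact Nat.zero_le _

theorem ES_one {n : ℕ} {F : Type*} [Field F] (S : Finset (Fin n)) :
    ES S (1 : MvPolynomial (Fin n) F) = 1 := by
  have h : (1 : MvPolynomial (Fin n) F) = monomial 0 1 := rfl
  rw [h, ES_monomial]
  simp

/-- evaluation of one top face -/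
theorem face_eval {n : ℕ} {F : Type*} [Field F] (S T : Finset (Fin n)) (hST : Disjoint S T) (e m : ℕ)
    (hm0 : 0 < m) (he : (e : F) * m = -1)
    (f : MvPolynomial (Fin n) F) (hdeg : ∀ α ∈ f.support, ∀ i, α i ≤ e)
    (hlin : ∀ α ∈ f.support, (∀ i ∈ S, α i = e) → ∑ i ∈ Sᶜ, α i ≤ 1)
    (hT : ∀ i ∉ S, f.coeff (eS e S + Finsupp.single i 1) ≠ 0 → i ∈ T)
    (hT' : ∀ i ∈ T, f.coeff (eS e S + Finsupp.single i 1) ≠ 0)
    (hsmall : ∀ j : ℕ, 0 < j → j ≤ m + T.card → (j : F) ≠ 0)
    (hpow : ∀ U ⊆ T, (f.coeff (eS e S) + ∑ i ∈ U, f.coeff (eS e S + Finsupp.single i 1)) ≠ 0 →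
      (f.coeff (eS e S) + ∑ i ∈ U, f.coeff (eS e S + Finsupp.single i 1)) ^ m = 1)
    (hne : T.card = 0 → f.coeff (eS e S) ≠ 0) :
    (∏ j ∈ range T.card, ((e * (j + 1) : ℕ) - 1 : F)) * EP (e * m) S (f ^ m)
      = (T.card.factorial * e ^ T.card : ℕ) := by
  classical
  set a : F := f.coeff (eS e S) with ha
  set b : Fin n → F := fun i => f.coeff (eS e S + Finsupp.single i 1) with hb
  set L : MvPolynomial (Fin n) F := C a + ∑ i ∈ T, C (b i) * X i with hL
  have h1 : EP (e * m) S (f ^ m) = ES S (L ^ m) := by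
    rw [EP_pow_top S e m f hdeg ((∏ i ∈ S, X i ^ e) * L) (top_coeff S T hST e f hlin hT)]
    rw [mul_pow, ← Finset.prod_pow]
    simp only [← pow_mul]
    refine EP_mul_pow S (e * m) (L ^ m) ?_
    intro α hα i hi
    have h2 := weight_pow {i} 0 L (by
      intro β hβ
      rw [Finset.sum_singleton, Nat.le_zero]
      by_contra hne'
      rw [mem_support_iff, hL, coeff_linear] at hβ
      apply hβ
      have hz : β ≠ 0 := by rintro rfl; exact hne' rfl
      rw [if_neg hz, zero_add]
      refine Finset.sum_eq_zero (fun k hk => ?_)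
      rw [if_neg]
      rintro rfl
      apply hne'
      rw [Finsupp.single_eq_of_ne]
      rintro rfl
      exact (Finset.disjoint_left.1 hST) hi hk) m α hα
    rw [Finset.sum_singleton] at h2
    omega
  have h2 := linear_integral S T hST b a m hsmall
  have h3 := linear_integral S T hST b a 0 (fun j hj hj' => hsmall j hj (by omega))
  rw [pow_zero, ES_one, mul_one] at h3
  have hR : ∑ U ∈ T.powerset, (-1 : F) ^ (T.card - U.card) * (a + ∑ i ∈ U, b i) ^ (m + T.card)
      = ∑ U ∈ T.powerset, (-1 : F) ^ (T.card - U.card) * (a + ∑ i ∈ U, b i) ^ (0 + T.card) := by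
    refine Finset.sum_congr rfl (fun U hU => ?_)
    congr 1
    by_cases hv : a + ∑ i ∈ U, b i = 0
    · rw [hv]
      have hc : T.card ≠ 0 := by
        intro hc
        have h4 := hne hc
        rw [Finset.card_eq_zero] at hc
        subst hc
        rw [Finset.mem_powerset, Finset.subset_empty] at hU
        subst hU
        rw [Finset.sum_empty, add_zero] at hv
        exact h4 hv
      rw [zero_pow (by omega), zero_pow (by omega)]
    · rw [pow_add, hpow U (Finset.mem_powerset.1 hU) hv, one_mul, zero_add]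
  rw [hR, ← h3, mul_assoc] at h2
  have hprod : (∏ i ∈ T, b i) ≠ 0 := Finset.prod_ne_zero_iff.2 (fun i hi => hT' i hi)
  have h4 := mul_left_cancel₀ hprod h2
  rw [h1]
  have h5 : (∏ j ∈ range T.card, ((0 + j + 1 : ℕ) : F)) = (T.card.factorial : F) := by
    rw [← Finset.prod_range_add_one_eq_factorial]
    push_cast
    simp
  rw [h5] at h4
  have h6 : (∏ j ∈ range T.card, ((e * (j + 1) : ℕ) - 1 : F))
      = (e : F) ^ T.card * ∏ j ∈ range T.card, ((m + j + 1 : ℕ) : F) := by
    rw [← Finset.card_range T.card, ← Finset.prod_const, Finset.card_range, ← Finset.prod_mul_distrib]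
    refine Finset.prod_congr rfl (fun j _ => ?_)
    push_cast
    linear_combination -he
  rw [h6, mul_assoc, h4]
  push_cast
  ring

end Pool.Agent.Helper318.MM
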